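import Pool.Agent.Helper70.LA.Defs
import Pool.Agent.Helper1.LD.Small

/-!
# From the grid to the unit cube (module OUT of MP_c61924_co)
-/

set_option autoImplicit false

namespace Pool.Agent.Helper70.LA

open Finset

theorem val_succ {L : ℕ} (b : Fin (L + 1) → Bool) :
    val b = (if b 0 then 2 ^ L else 0) + val (fun j : Fin L => b j.succ) := by
  unfold val
  rw [Fin.sum_univ_succ]
  congr 1
  refine Finset.sum_congr rfl fun j _ => ?_
  have h : L + 1 - 1 - ((j.succ : Fin (L + 1)) : ℕ) = L - 1 - (j : ℕ) := by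
    rw [Fin.val_succ]; omega
  rw [h]

theorem val_lt_two_pow (L : ℕ) (b : Fin L → Bool) : val b < 2 ^ L := by
  induction L with
  | zero => simp [val]
  | succ L ih =>
    rw [val_succ, pow_succ]
    have := ih (fun j => b j.succ)
    split_ifs <;> omega

theorem val_injective (L : ℕ) : Function.Injective (val (L := L)) := by
  induction L with
  | zero => intro b b' _; ext j; exact j.elim0
  | succ L ih =>
    intro b b' h
    rw [val_succ, val_succ] at h
    have h1 := val_lt_two_pow L (fun j => b j.succ)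
    have h2 := val_lt_two_pow L (fun j => b' j.succ)
    have h0 : b 0 = b' 0 := by
      cases hb : b 0 <;> cases hb' : b' 0 <;> simp only [hb, hb', if_true, if_false,
        Bool.false_eq_true] at h ⊢ <;> omega
    rw [h0] at h
    have h3 : (fun j : Fin L => b j.succ) = fun j : Fin L => b' j.succ := ih (by omega)
    ext j
    refine Fin.cases ?_ (fun j => ?_) j
    · exact h0
    · exact congrFun h3 j

/-- bit strings and numbers below `2 ^ L` -/
noncomputable def valEquiv (L : ℕ) : (Fin L → Bool) ≃ Fin (2 ^ L) :=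
  Equiv.ofBijective (fun b => ⟨val b, val_lt_two_pow L b⟩) (by
    rw [Fintype.bijective_iff_injective_and_card]
    refine ⟨fun b b' h => val_injective L (by simpa using h), ?_⟩
    simp)

theorem valEquiv_apply (L : ℕ) (b : Fin L → Bool) : ((valEquiv L b : Fin (2 ^ L)) : ℕ) = val b := rfl

theorem avd_eq (L d : ℕ) (f : (Fin d → ℕ) → ℝ) :
    Pool.Agent.Helper93.LD.avd L d f = av fun x : Fin d × Fin L → Bool => f fun i => num i x := by
  rw [Pool.Agent.Helper93.LD.avd_eq_sum]
  unfold av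
  have hc : Fintype.card (Fin d × Fin L) = L * d := by simp [mul_comm]
  rw [hc, pow_mul, div_eq_inv_mul]
  congr 1
  set e : (Fin d × Fin L → Bool) ≃ (Fin d → Fin (2 ^ L)) :=
    (Equiv.curry (Fin d) (Fin L) Bool).trans (Equiv.piCongrRight fun _ => valEquiv L) with he
  rw [← e.sum_comp]
  refine Finset.sum_congr rfl fun x _ => ?_
  congr 1

/-- from the grid to the unit cube; apply with `hmain = abstract_main (Fin d) _` and
`hdisc = fun n L hn P q u κ hP => discLike_Dg n hn P q u κ hP` -/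
theorem disc_all_of (d : ℕ) (hd : 3 ≤ d)
    (hmain : ∃ c : ℝ, 0 < c ∧ ∃ n0 : ℕ, ∀ n, n0 ≤ n → ∀ L, n < L → ∀ κ : ℝ, 0 < κ →
      ∀ D : (Fin d × Fin L → Bool) → ℝ, DiscLike n κ D →
        c * (κ / 2 ^ n) * √(((n : ℝ) + 1) ^ (Fintype.card (Fin d) - 1)) ≤ av fun x => |D x|)
    (hdisc : ∀ (n L : ℕ), n < L → ∀ (P : Finset (Fin d → ℝ)) (q : (Fin d → ℝ) → Fin d → ℕ)
      (u : Fin d → ℝ) (κ : ℝ), 4 * P.card ≤ 2 ^ n → DiscLike n κ (Dg (L := L) P q u κ)) :
    ∃ c : ℝ, 0 < c ∧ ∀ N : ℕ, 2 ≤ N →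
    ∀ P : Finset (Fin d → ℝ), P.card = N →
      c * (Real.log N) ^ (((d : ℝ) - 1) / 2)
        ≤ ∫ x in Set.Icc (0 : Fin d → ℝ) 1, Pool.Agent.Helper93.LD.absdisc P N x := by
  obtain ⟨c₁, hc₁, n₀, hmain⟩ := hmain
  obtain ⟨c₂, hc₂, hsmall⟩ := Pool.Agent.Helper93.LD.small_N d (by omega) (2 ^ n₀)
  have hd1 : (1 : ℝ) ≤ d := by exact_mod_cast (by omega : 1 ≤ d)
  set E : ℝ := ((d : ℝ) - 1) / 2 with hE
  have hE0 : 0 ≤ E := by rw [hE]; linarith
  set M : ℝ := ((n₀ : ℝ) + 1) ^ E with hM
  have hM0 : 0 < M := by positivity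
  refine ⟨min (c₁ / 8) (c₂ / M), lt_min (by positivity) (by positivity), fun N hN P hPN => ?_⟩
  have hNpos : (0 : ℝ) < N := by exact_mod_cast (by omega : 0 < N)
  have hlog0 : 0 ≤ Real.log N := Real.log_natCast_nonneg N
  have hpow0 : 0 ≤ (Real.log N) ^ E := Real.rpow_nonneg hlog0 _
  have hlog2 : Real.log 2 ≤ 1 := by
    have := Real.log_two_lt_d9
    linarith
  rcases Nat.lt_or_ge N (2 ^ n₀) with hN2 | hN2
  · have h3 := hsmall N (by omega) hN2.le P hPN
    have h4 : Real.log N ≤ (n₀ : ℝ) + 1 := by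
      have e1 : Real.log N ≤ Real.log ((2 : ℝ) ^ n₀) := by
        apply Real.log_le_log hNpos
        exact_mod_cast hN2.le
      rw [Real.log_pow] at e1
      have e5 : (0 : ℝ) ≤ n₀ := by positivity
      nlinarith
    have h5 : (Real.log N) ^ E ≤ M := Real.rpow_le_rpow hlog0 h4 hE0
    have h6 : min (c₁ / 8) (c₂ / M) * (Real.log N) ^ E ≤ c₂ / M * M :=
      mul_le_mul (min_le_right _ _) h5 hpow0 (by positivity)
    have h7 : c₂ / M * M = c₂ := by field_simp
    linarith
  · -- many points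
    set m := Nat.clog 2 N with hm
    have hm1 : N ≤ 2 ^ m := Nat.le_pow_clog (by norm_num) N
    have hm2 : 2 ^ m ≤ 2 * N := by
      have h1 : 1 < N := by omega
      have h2 := Nat.pow_pred_clog_lt_self (b := 2) (by norm_num) h1
      have h3 : 0 < Nat.clog 2 N := Nat.clog_pos (by norm_num) (by omega)
      have h4 : 2 ^ Nat.clog 2 N = 2 * 2 ^ (Nat.clog 2 N).pred := by
        rw [← pow_succ']
        congr 1
        exact (Nat.succ_pred_eq_of_pos h3).symm
      rw [← hm] at h2 h4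
      omega
    have hmn : n₀ ≤ m := by
      have := Nat.clog_mono_right 2 hN2
      rwa [Nat.clog_pow 2 n₀ (by norm_num)] at this
    have hlog : Real.log N ≤ m := by
      have h3 : Real.log N ≤ Real.log ((2 : ℝ) ^ m) := by
        apply Real.log_le_log hNpos
        exact_mod_cast hm1
      rw [Real.log_pow] at h3
      have h5 : (0 : ℝ) ≤ m := by positivity
      nlinarith
    set n := m + 2 with hn
    have hn1 : 4 * P.card ≤ 2 ^ n := by rw [hPN, hn, pow_add]; omega
    have hn2 : (2 : ℝ) ^ n ≤ 8 * N := by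
      have : 2 ^ n ≤ 8 * N := by rw [hn, pow_add]; omega
      exact_mod_cast this
    have key : c₁ * ((N : ℝ) / 2 ^ n) * √(((n : ℝ) + 1) ^ (d - 1)) ≤
        ∫ x in Set.Icc (0 : Fin d → ℝ) 1, Pool.Agent.Helper93.LD.absdisc P N x := by
      refine Pool.Agent.Helper93.LD.int_reduction d (n + 1) P N _ fun u _ q => ?_
      rw [avd_eq]
      have h1 := hmain n (by omega) (n + 1) (by omega) N hNpos
        (Dg (L := n + 1) P q u N) (hdisc n (n + 1) (by omega) P q u N hn1)
      rw [Fintype.card_fin] at h1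
      refine h1.trans (le_of_eq ?_)
      unfold Dg
      congr 1
      ext x
      congr 1
      congr 1
      refine Finset.sum_congr rfl fun p _ => ?_
      congr 1
    refine le_trans ?_ key
    have hsq : (Real.log N) ^ E ≤ √(((n : ℝ) + 1) ^ (d - 1)) := by
      have h1 : √(((n : ℝ) + 1) ^ (d - 1)) = ((n : ℝ) + 1) ^ E := by
        rw [Real.sqrt_eq_rpow, ← Real.rpow_natCast, ← Real.rpow_mul (by positivity)]
        congr 1
        rw [hE, Nat.cast_sub (by omega)]
        push_cast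
        ring
      rw [h1]
      refine Real.rpow_le_rpow hlog0 ?_ hE0
      rw [hn]
      push_cast
      linarith
    have h8 : (1 : ℝ) / 8 ≤ N / 2 ^ n := by
      rw [div_le_div_iff₀ (by norm_num) (by positivity)]
      linarith
    calc min (c₁ / 8) (c₂ / M) * (Real.log N) ^ E ≤ c₁ / 8 * √(((n : ℝ) + 1) ^ (d - 1)) :=
          mul_le_mul (min_le_left _ _) hsq hpow0 (by positivity)
      _ = c₁ * (1 / 8) * √(((n : ℝ) + 1) ^ (d - 1)) := by ring
      _ ≤ c₁ * ((N : ℝ) / 2 ^ n) * √(((n : ℝ) + 1) ^ (d - 1)) := by gcongr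

end Pool.Agent.Helper70.LA
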